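import Pool.Agent.V11162.AndrePow

/-!
MP_bbeacd_co, Q1: for even `q > 2`, a conic of `PG(2, q^3)` tangent to the line at infinity at `T`,
with nucleus `N`, `{T, N} ≠ {E, F}`, never gives an arc in an Andre plane of an Andre set with
transversal points `E, F`.
-/

namespace Pool.Agent.Results.MP_bbeacd_co.NoArcs

variable {K : Type} [Field K]

/-- The norm `x ^ (q ^ 2 + q + 1)`. -/
def Nm (q : ℕ) (x : K) : K := x ^ (q ^ 2 + q + 1)

/-- `P` spans a point of the Andre set `{⟨e + θ f⟩ : N(θ) = δ}`, with transversal points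
`⟨e⟩` and `⟨f⟩`. -/
def InD (q : ℕ) (δ : K) (e f P : K × K) : Prop :=
  ∃ θ s : K, Nm q θ = δ ∧ s ≠ 0 ∧ P = s • (e + θ • f)

/-- The lines of the affine Andre plane: the cosets of the one-dimensional subspaces `⟨P⟩` outside
the Andre set, and the cosets of `X_{m,u} = {s e + s^(q^m) u f}` with `N(u) = δ`. -/
def IsLine (q m : ℕ) (δ : K) (e f : K × K) (ℓ : Set (K × K)) : Prop :=
  (∃ v P : K × K, P ≠ 0 ∧ ¬ InD q δ e f P ∧ ℓ = {w | ∃ s : K, w = v + s • P}) ∨
  (∃ (v : K × K) (u : K), Nm q u = δ ∧ ℓ = {w | ∃ s : K, w = v + s • e + (s ^ q ^ m * u) • f})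

/-- No three points of `C` are collinear in the Andre plane. -/
def IsArc (q m : ℕ) (δ : K) (e f : K × K) (C : Set (K × K)) : Prop :=
  ∀ ℓ, IsLine q m δ e f ℓ → ∀ x ∈ C, ∀ y ∈ C, ∀ z ∈ C, x ∈ ℓ → y ∈ ℓ → z ∈ ℓ →
    x = y ∨ y = z ∨ x = z

/-- The affine points of the curve `Q = 0` (the line at infinity is the third coordinate `= 0`). -/
def affPts (Q : QuadraticForm K (Fin 3 → K)) : Set (K × K) := {p | Q ![p.1, p.2, 1] = 0}

/-- `Q` is non-degenerate: no nonzero vector of the radical of the polar form is singular. -/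
def Nonsing (Q : QuadraticForm K (Fin 3 → K)) : Prop :=
  ∀ v, v ≠ 0 → (∀ w, QuadraticMap.polar Q v w = 0) → Q v ≠ 0

/-- The line at infinity is tangent to `Q = 0` at `T`: it meets the conic in `T` only. -/
def TangentInf (Q : QuadraticForm K (Fin 3 → K)) (T : Fin 3 → K) : Prop :=
  T ≠ 0 ∧ T 2 = 0 ∧ ∀ v : Fin 3 → K, v 2 = 0 → (Q v = 0 ↔ ∃ c : K, v = c • T)

/-- `N` is the nucleus: it spans the radical of the polar form, so it is on all tangent lines. -/
def IsNucleus (Q : QuadraticForm K (Fin 3 → K)) (N : Fin 3 → K) : Prop :=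
  N ≠ 0 ∧ ∀ w, QuadraticMap.polar Q N w = 0

/-- The vectors span the same projective point. -/
def SamePt (v w : Fin 3 → K) : Prop := ∃ c : K, c ≠ 0 ∧ v = c • w

/-- The point at infinity of a direction. -/
def ptInf (e : K × K) : Fin 3 → K := ![e.1, e.2, 0]

open Pool.Agent.V11162.AndreCol Pool.Agent.V11162.AndreCore

lemma Nm_frob {h : ℕ} (hq3 : ∀ x : K, x ^ (2 ^ h) ^ 3 = x) (m : ℕ) (x : K) :
    Nm (2 ^ h) (x ^ (2 ^ h) ^ m) = Nm (2 ^ h) x := by
  have h1 : ∀ x : K, Nm (2 ^ h) (x ^ 2 ^ h) = Nm (2 ^ h) x := by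
    intro x
    unfold Nm
    rw [← pow_mul]
    have e : 2 ^ h * ((2 ^ h) ^ 2 + 2 ^ h + 1) = (2 ^ h) ^ 3 + ((2 ^ h) ^ 2 + 2 ^ h) := by ring
    rw [e, pow_add, hq3, pow_add _ ((2 ^ h) ^ 2 + 2 ^ h) 1, pow_one]
    ring
  induction m with
  | zero => simp
  | succ m ih =>
    rw [pow_succ, pow_mul, h1, ih]

lemma Nm_mul (q : ℕ) (x y : K) : Nm q (x * y) = Nm q x * Nm q y := mul_pow _ _ _

lemma polar_add (Q : QuadraticForm K (Fin 3 → K)) (v w : Fin 3 → K) :
    Q (v + w) = Q v + Q w + QuadraticMap.polar Q v w := by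
  rw [QuadraticMap.polar]
  ring

theorem result (K : Type) [Field K] [Fintype K] (h : ℕ) (hh : 2 ≤ h)
    (hK : Fintype.card K = (2 ^ h) ^ 3) (δ : K) (hδ : δ ≠ 0) (hδq : δ ^ 2 ^ h = δ) (m : ℕ)
    (hm : m = 1 ∨ m = 2) (e f : K × K) (hef : e.1 * f.2 ≠ e.2 * f.1)
    (Q : QuadraticForm K (Fin 3 → K)) (hQ : Nonsing Q) (T N : Fin 3 → K) (hT : TangentInf Q T)
    (hN : IsNucleus Q N)
    (hTN : ¬ ((SamePt T (ptInf e) ∧ SamePt N (ptInf f)) ∨ (SamePt T (ptInf f) ∧ SamePt N (ptInf e)))) :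
    ¬ IsArc (2 ^ h) m δ e f (affPts Q) := by
  have : Fact (Nat.Prime 2) := ⟨Nat.prime_two⟩
  have hK' : Fintype.card K = 2 ^ (3 * h) := by rw [hK, ← pow_mul]; congr 1; ring
  have : CharP K 2 := charP_of_card_eq_prime_pow hK'
  have two : (2 : K) = 0 := CharTwo.two_eq_zero
  have hneg : ∀ x : K, -x = x := CharTwo.neg_eq
  obtain ⟨hT0, hT2, hTs⟩ := hT
  obtain ⟨hN0, hNr⟩ := hN
  have hQT : Q T = 0 := (hTs T hT2).mpr ⟨1, by rw [one_smul]⟩
  have hQN : Q N ≠ 0 := hQ N hN0 hNr
  have pr : ∀ v w, QuadraticMap.polar Q v w = QuadraticMap.polarBilin Q v w := by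
    intro v w; rfl
  -- Step A
  have hA : ∀ v : Fin 3 → K, v 2 = 0 → QuadraticMap.polar Q T v = 0 := by
    intro v hv
    by_contra hB
    set α : K := -(Q v) / QuadraticMap.polar Q T v with hα
    have h1 : Q (α • T + v) = 0 := by
      rw [polar_add, QuadraticMap.map_smul, hQT, smul_zero, zero_add, pr, map_smul,
        LinearMap.smul_apply, ← pr, smul_eq_mul, hα]
      field_simp
      ring
    have h2 : (α • T + v) 2 = 0 := by
      rw [Pi.add_apply, Pi.smul_apply, hT2, hv, smul_zero, add_zero]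
    obtain ⟨c, hc⟩ := (hTs _ h2).mp h1
    have h3 : v = (c - α) • T := by
      rw [sub_smul, ← hc]
      abel
    apply hB
    rw [h3, pr, map_smul, ← pr, QuadraticMap.polar_self, hQT]
    simp
  -- Step B
  have hTr : ∃ w, QuadraticMap.polar Q T w ≠ 0 := by
    by_contra hno
    push Not at hno
    exact hQ T hT0 hno hQT
  obtain ⟨w, hw⟩ := hTr
  have hw2 : w 2 ≠ 0 := fun h => hw (hA w h)
  have hN2 : N 2 = 0 := by
    by_contra hN2
    apply hw
    have h1 : w = (w 2 / N 2) • N + (w - (w 2 / N 2) • N) := by abel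
    have h2 : (w - (w 2 / N 2) • N) 2 = 0 := by
      rw [Pi.sub_apply, Pi.smul_apply, smul_eq_mul]
      field_simp
      ring
    rw [h1, pr, map_add, map_smul, ← pr, ← pr, hA _ h2, QuadraticMap.polar_comm, hNr]
    simp
  -- Step C
  have hC : N 0 * T 1 ≠ N 1 * T 0 := by
    intro h1
    apply hQN
    rw [hTs N hN2]
    by_cases h0 : T 0 = 0
    · have h10 : T 1 ≠ 0 := by
        intro h10
        apply hT0
        funext i
        fin_cases i
        · exact h0
        · exact h10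
        · exact hT2
      refine ⟨N 1 / T 1, ?_⟩
      funext i
      rw [Pi.smul_apply, smul_eq_mul]
      fin_cases i
      · change N 0 = N 1 / T 1 * T 0
        field_simp
        exact h1
      · change N 1 = N 1 / T 1 * T 1
        field_simp
      · change N 2 = N 1 / T 1 * T 2
        rw [hN2, hT2, mul_zero]
    · refine ⟨N 0 / T 0, ?_⟩
      funext i
      rw [Pi.smul_apply, smul_eq_mul]
      fin_cases i
      · change N 0 = N 0 / T 0 * T 0
        field_simp
      · change N 1 = N 0 / T 0 * T 1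
        field_simp
        exact h1.symm
      · change N 2 = N 0 / T 0 * T 2
        rw [hN2, hT2, mul_zero]
  -- Step D
  obtain ⟨v0, hv02, hQv0, hβ⟩ : ∃ v : Fin 3 → K, v 2 = 1 ∧ Q v = 0 ∧
      QuadraticMap.polar Q T v ≠ 0 := by
    set w' := (w 2)⁻¹ • w with hw'
    have h1 : QuadraticMap.polar Q T w' ≠ 0 := by
      rw [hw', pr, map_smul, ← pr, smul_eq_mul]
      exact mul_ne_zero (inv_ne_zero hw2) hw
    set α : K := -(Q w') / QuadraticMap.polar Q T w' with hα
    refine ⟨α • T + w', ?_, ?_, ?_⟩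
    · rw [Pi.add_apply, Pi.smul_apply, hT2, smul_zero, zero_add, hw', Pi.smul_apply, smul_eq_mul]
      field_simp
    · rw [polar_add, QuadraticMap.map_smul, hQT, smul_zero, zero_add,
        QuadraticMap.polar_smul_left, smul_eq_mul, hα]
      field_simp
      ring
    · rw [pr, map_add, map_smul, ← pr, ← pr, QuadraticMap.polar_self, hQT]
      simpa using h1
  set β := QuadraticMap.polar Q T v0 with hβd
  -- Step E
  set τ : K := Q N / β with hτ
  have hτ0 : τ ≠ 0 := div_ne_zero hQN hβ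
  have hE : ∀ d : K, Q (v0 + (d • N + (d ^ 2 * τ) • T)) = 0 := by
    intro d
    rw [polar_add, polar_add Q (d • N), hQv0, QuadraticMap.map_smul, QuadraticMap.map_smul, hQT]
    have h1 : QuadraticMap.polar Q (d • N) ((d ^ 2 * τ) • T) = 0 := by
      rw [QuadraticMap.polar_smul_left, hNr, smul_zero]
    have h2 : QuadraticMap.polar Q v0 (d • N + (d ^ 2 * τ) • T) = (d ^ 2 * τ) * β := by
      rw [pr, map_add, map_smul, map_smul, ← pr, ← pr, QuadraticMap.polar_comm Q v0 N, hNr,
        QuadraticMap.polar_comm Q v0 T, ← hβd]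
      simp
    have h3 : τ * β = Q N := by rw [hτ]; field_simp
    rw [h1, h2]
    simp only [smul_eq_mul]
    linear_combination d ^ 2 * h3 + (d ^ 2 * Q N) * two
  -- coordinates
  have hdet : e.1 * f.2 - e.2 * f.1 ≠ 0 := sub_ne_zero.mpr hef
  set det := e.1 * f.2 - e.2 * f.1 with hdetd
  set n1 : K := (N 0 * f.2 - N 1 * f.1) / det with hn1
  set n2 : K := (e.1 * N 1 - e.2 * N 0) / det with hn2
  set t1 : K := τ * ((T 0 * f.2 - T 1 * f.1) / det) with ht1
  set t2 : K := τ * ((e.1 * T 1 - e.2 * T 0) / det) with ht2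
  have cN0 : N 0 = n1 * e.1 + n2 * f.1 := by
    rw [hn1, hn2]
    field_simp
    rw [hdetd]
    ring
  have cN1 : N 1 = n1 * e.2 + n2 * f.2 := by
    rw [hn1, hn2]
    field_simp
    rw [hdetd]
    ring
  have cT0 : τ * T 0 = t1 * e.1 + t2 * f.1 := by
    rw [ht1, ht2]
    field_simp
    rw [hdetd]
    ring
  have cT1 : τ * T 1 = t1 * e.2 + t2 * f.2 := by
    rw [ht1, ht2]
    field_simp
    rw [hdetd]
    ring
  have hΔ : n1 * t2 + n2 * t1 ≠ 0 := by
    intro h0
    apply hC
    have h1 : τ * (N 0 * T 1 - N 1 * T 0) = 0 := by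
      have : τ * (N 0 * T 1 - N 1 * T 0) = det * (n1 * t2 - n2 * t1) := by
        have : τ * (N 0 * T 1 - N 1 * T 0) = N 0 * (τ * T 1) - N 1 * (τ * T 0) := by ring
        rw [this, cT0, cT1, cN0, cN1, hdetd]
        ring
      rw [this]
      have h2 : n1 * t2 - n2 * t1 = 0 := by linear_combination h0 - n2 * t1 * two
      rw [h2, mul_zero]
    exact sub_eq_zero.mp ((mul_eq_zero.mp h1).resolve_left hτ0)
  -- the transversal points
  have hsT : ∀ g g' : K × K, ∀ x : K, (τ * T 0 = x * g.1) → (τ * T 1 = x * g.2) →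
      SamePt T (ptInf g) := by
    intro g g' x h1 h2
    refine ⟨x / τ, ?_, ?_⟩
    · intro h0
      have hx : x = 0 := (div_eq_zero_iff.mp h0).resolve_right hτ0
      apply hT0
      rw [hx, zero_mul] at h1 h2
      funext i
      fin_cases i
      · exact (mul_eq_zero.mp h1).resolve_left hτ0
      · exact (mul_eq_zero.mp h2).resolve_left hτ0
      · exact hT2
    · funext i
      rw [Pi.smul_apply, smul_eq_mul]
      fin_cases i
      · change T 0 = x / τ * g.1
        field_simp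
        linear_combination h1
      · change T 1 = x / τ * g.2
        field_simp
        linear_combination h2
      · change T 2 = x / τ * 0
        rw [hT2, mul_zero]
  have hsN : ∀ g : K × K, ∀ x : K, (N 0 = x * g.1) → (N 1 = x * g.2) →
      SamePt N (ptInf g) := by
    intro g x h1 h2
    refine ⟨x, ?_, ?_⟩
    · intro h0
      apply hN0
      rw [h0, zero_mul] at h1 h2
      funext i
      fin_cases i
      · exact h1
      · exact h2
      · exact hN2
    · funext i
      rw [Pi.smul_apply, smul_eq_mul]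
      fin_cases i
      · exact h1
      · exact h2
      · change N 2 = x * 0
        rw [hN2, mul_zero]
  -- the collision
  obtain ⟨θ, hθ⟩ := exists_norm hK' (by omega) δ hδ (mem_kk.mpr hδq)
  have hq3 := pow_q3 hK'
  have hθ0 : θ ≠ 0 := by
    rintro rfl
    apply hδ
    rw [← hθ, zero_pow (by positivity)]
  obtain ⟨y, y', ha, ha', hb, hb', hne, μ, hμ, hμ0, heq⟩ := coll hK' hh m hm t2 (t1 * θ) n2
    (n1 * θ) (by
      have : n2 * (t1 * θ) + n1 * θ * t2 = θ * (n1 * t2 + n2 * t1) := by ring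
      rw [this]
      exact mul_ne_zero hθ0 hΔ) (by
      rintro ⟨h1, h2⟩
      have h3 : n1 = 0 := (mul_eq_zero.mp h2).resolve_right hθ0
      apply hTN
      left
      refine ⟨hsT e f t1 ?_ ?_, hsN f n2 ?_ ?_⟩
      · rw [cT0, h1]; ring
      · rw [cT1, h1]; ring
      · rw [cN0, h3]; ring
      · rw [cN1, h3]; ring) (by
      rintro ⟨h1, h2⟩
      have h3 : t1 = 0 := (mul_eq_zero.mp h1).resolve_right hθ0
      apply hTN
      right
      refine ⟨hsT f e t2 ?_ ?_, hsN e n1 ?_ ?_⟩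
      · rw [cT0, h3]; ring
      · rw [cT1, h3]; ring
      · rw [cN0, h2]; ring
      · rw [cN1, h2]; ring)
  set s := (2 ^ h) ^ m with hs
  have hs0 : s ≠ 0 := by rw [hs]; positivity
  set Δ := n1 * t2 + n2 * t1 with hΔd
  set A := t2 * y + t1 * θ * y ^ s with hAd
  set A' := t2 * y' + t1 * θ * y' ^ s with hAd'
  set B := n2 * y + n1 * θ * y ^ s with hBd
  set B' := n2 * y' + n1 * θ * y' ^ s with hBd'
  have hy0 : y ≠ 0 := by
    rintro rfl
    apply ha
    rw [hAd, zero_pow hs0]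
    ring
  have hy0' : y' ≠ 0 := by
    intro h0
    exact hne 0 (zero_pow (by positivity)) (by rw [h0, zero_mul])
  -- the points
  have hpt : ∀ y A B : K, A ≠ 0 → A = t2 * y + t1 * θ * y ^ s → B = n2 * y + n1 * θ * y ^ s →
      ((v0 0, v0 1) : K × K) + (B / A ^ 2 * Δ * y) • e + (B / A ^ 2 * Δ * θ * y ^ s) • f ∈
        affPts Q := by
    intro y A B hA0 hAe hBe
    have h1 := hE (B / A)
    change Q _ = 0
    rw [← h1]
    congr 1
    have k1 : n1 * A + t1 * B = Δ * y := by
      rw [hAe, hBe, hΔd]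
      linear_combination (n1 * t1 * θ * y ^ s) * two
    have k2 : n2 * A + t2 * B = Δ * θ * y ^ s := by
      rw [hAe, hBe, hΔd]
      linear_combination (n2 * t2 * y) * two
    have c1 : B / A ^ 2 * Δ * y = B / A * n1 + (B / A) ^ 2 * t1 := by
      field_simp
      linear_combination (-B) * k1
    have c2 : B / A ^ 2 * Δ * θ * y ^ s = B / A * n2 + (B / A) ^ 2 * t2 := by
      field_simp
      linear_combination (-B) * k2
    rw [c1, c2]
    funext i
    simp only [Pi.add_apply, Pi.smul_apply, smul_eq_mul]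
    fin_cases i
    · change v0 0 + (B / A * n1 + (B / A) ^ 2 * t1) * e.1 +
        (B / A * n2 + (B / A) ^ 2 * t2) * f.1 = v0 0 + (B / A * N 0 + (B / A) ^ 2 * τ * T 0)
      linear_combination (-(B / A)) * cN0 - (B / A) ^ 2 * cT0
    · change v0 1 + (B / A * n1 + (B / A) ^ 2 * t1) * e.2 +
        (B / A * n2 + (B / A) ^ 2 * t2) * f.2 = v0 1 + (B / A * N 1 + (B / A) ^ 2 * τ * T 1)
      linear_combination (-(B / A)) * cN1 - (B / A) ^ 2 * cT1
    · change (1 : K) = v0 2 + (B / A * N 2 + (B / A) ^ 2 * τ * T 2)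
      rw [hN2, hT2, hv02]
      ring
  set r := B / A ^ 2 * Δ with hr
  set r' := B' / A' ^ 2 * Δ with hr'
  have hr0 : r ≠ 0 := mul_ne_zero (div_ne_zero hb (pow_ne_zero 2 ha)) hΔ
  have hr0' : r' ≠ 0 := mul_ne_zero (div_ne_zero hb' (pow_ne_zero 2 ha')) hΔ
  have hrr : r' = μ * r := by
    have h1 : B' / A' ^ 2 = μ * (B / A ^ 2) := by
      rw [← mul_div_assoc, div_eq_div_iff (pow_ne_zero 2 ha') (pow_ne_zero 2 ha)]
      linear_combination heq
    rw [hr', hr, h1]
    ring
  have hμs : μ ^ s = μ := by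
    rw [hs]
    rcases hm with rfl | rfl
    · rw [pow_one, hμ]
    · rw [pow_two, pow_mul, hμ, hμ]
  set u := θ * r / r ^ s with hu
  have hrs : r ^ s ≠ 0 := pow_ne_zero s hr0
  have hu1 : ∀ y, (r * y) ^ s * u = r * θ * y ^ s := by
    intro y
    rw [hu, mul_pow]
    field_simp
  have hu2 : ∀ y, (r' * y) ^ s * u = r' * θ * y ^ s := by
    have gen : ∀ ρ ρ' u y : K, ρ' = μ * ρ → (ρ * y) ^ s * u = ρ * θ * y ^ s →
        (ρ' * y) ^ s * u = ρ' * θ * y ^ s := by
      intro ρ ρ' u y h1 h2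
      have e1 : (ρ' * y) ^ s * u = μ * ((ρ * y) ^ s * u) := by
        rw [h1, mul_pow, mul_pow, hμs, mul_pow]
        ring
      rw [e1, h2, h1]
      ring
    intro y
    exact gen r r' u y hrr (hu1 y)
  intro harc
  have hline : IsLine (2 ^ h) m δ e f
      {w | ∃ x : K, w = ((v0 0, v0 1) : K × K) + x • e + (x ^ (2 ^ h) ^ m * u) • f} := by
    right
    refine ⟨(v0 0, v0 1), u, ?_, rfl⟩
    have h1 : u * r ^ s = θ * r := by
      rw [hu]
      field_simp
    have h2 := congrArg (Nm (2 ^ h)) h1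
    rw [Nm_mul, Nm_mul, hs, Nm_frob hq3] at h2
    have h3 : Nm (2 ^ h) r ≠ 0 := pow_ne_zero _ hr0
    rw [mul_right_cancel₀ h3 h2]
    exact hθ
  have h1 := harc _ hline ((v0 0, v0 1) : K × K) (by
      change Q _ = 0
      rw [← hQv0]
      congr 1
      funext i
      fin_cases i
      · rfl
      · rfl
      · exact hv02.symm) _ (hpt y A B ha hAd hBd) _ (hpt y' A' B' ha' hAd' hBd')
    ⟨0, by rw [zero_smul, ← hs, zero_pow hs0, zero_mul, zero_smul, add_zero, add_zero]⟩
    ⟨r * y, by rw [← hs, hu1]⟩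
    ⟨r' * y', by rw [← hs, hu2]⟩
  -- coordinates separate points
  have hsep : ∀ x x' z z' : K, ((v0 0, v0 1) : K × K) + x • e + z • f = (v0 0, v0 1) + x' • e +
      z' • f → x = x' := by
    intro x x' z z' h0
    have g1 := congrArg Prod.fst h0
    have g2 := congrArg Prod.snd h0
    simp only [Prod.fst_add, Prod.snd_add, Prod.smul_fst, Prod.smul_snd, smul_eq_mul] at g1 g2
    have g3 : (x - x') * det = 0 := by
      rw [hdetd]
      linear_combination f.2 * g1 - f.1 * g2
    exact sub_eq_zero.mp ((mul_eq_zero.mp g3).resolve_right hdet)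
  have hz : ((v0 0, v0 1) : K × K) = (v0 0, v0 1) + (0 : K) • e + (0 : K) • f := by
    rw [zero_smul, zero_smul, add_zero, add_zero]
  rcases h1 with h1 | h1 | h1
  · have h2 := hsep _ _ _ _ (hz.symm.trans h1)
    exact mul_ne_zero hr0 hy0 h2.symm
  · have h2 := hsep _ _ _ _ h1
    rw [← hr, ← hr', hrr] at h2
    apply hne μ⁻¹ (by rw [inv_pow, hμ])
    have h3 : r * (y - μ * y') = 0 := by linear_combination h2
    have h4 := (mul_eq_zero.mp h3).resolve_left hr0
    field_simp
    linear_combination -h4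
  · have h2 := hsep _ _ _ _ (hz.symm.trans h1)
    exact mul_ne_zero hr0' hy0' h2.symm

end Pool.Agent.Results.MP_bbeacd_co.NoArcs
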